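import Pool.Agent.H.MP_c30e5d_gt.Final
import Pool.Agent.H.MP_c30e5d_gt.R3.Words

/-!
# A positive product of partial full twists which is not parity

Conventions (see `Pool/Agent/H/MP_c30e5d_gt/Defs.lean`): the braids have `m + 1` strands, the letter
`i : Fin m` of a positive word is the generator `σ_{i+1}`, `HHH k m w p e` is the homology, in
homological degree `e`, of the complex obtained by applying the Hochschild homology functor `HH_p`
(computed by the Koszul complex of `k[x_0, …, x_m]`) to the Rouquier complex of the word `w`;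
the complex of a positive crossing is `B_i → R` with `B_i` in homological degree `0`
(the convention in which the torus links `T(n, n)` are parity).
-/

namespace Pool.Agent.Results.MP_c30e5d_gt.NotParity

open Pool.Agent.H.MP_c30e5d_gt

/-- The word `(σ_1 ⋯ σ_{k-1})^k` of the full twist on the first `k` of the `7` strands,
repeated `n` times. -/
def twistWord (k n : ℕ) : List (Fin 6) :=
  (List.replicate n (List.replicate k (cyc 6 k)).flatten).flatten

/-- The literal word of `FT_2^N FT_4^(2N) FT_5^N FT_7^(3N)`. -/
def word (N : ℕ) : List (Fin 6) :=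
  twistWord 2 N ++ twistWord 4 (2 * N) ++ twistWord 5 N ++ twistWord 7 (3 * N)

/-- `BraidEq w w'`: the positive word `w'` is obtained from the positive word `w` by finitely many
braid relations `σ_i σ_j σ_i = σ_j σ_i σ_j` (`|i - j| = 1`) and `σ_i σ_j = σ_j σ_i`
(`|i - j| ≥ 2`). -/
inductive BraidEq (w : List (Fin 6)) : List (Fin 6) → Prop
  | refl : BraidEq w w
  | braid (u v : List (Fin 6)) (i j : Fin 6) (h : (i : ℕ) + 1 = j ∨ (j : ℕ) + 1 = i) :
      BraidEq w (u ++ [i, j, i] ++ v) → BraidEq w (u ++ [j, i, j] ++ v)
  | far (u v : List (Fin 6)) (i j : Fin 6) (h : (i : ℕ) + 2 ≤ j ∨ (j : ℕ) + 2 ≤ i) :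
      BraidEq w (u ++ [i, j] ++ v) → BraidEq w (u ++ [j, i] ++ v)

theorem word_eq (N : ℕ) : word N = ftWord 6 (aexp N) := by
  simp [word, twistWord, ftWord, aexp, List.range_succ]

theorem nontrivial_of_braidEq {k : Type} [Field k] {w w' : List (Fin 6)} (h : BraidEq w w')
    (p e : ℕ) (hn : Nontrivial (HHH k 6 w p e)) : Nontrivial (HHH k 6 w' p e) := by
  induction h with
  | refl => exact hn
  | braid u v i j h _ ih =>
    rcases h with h | h
    · exact (Step.r3 u v i j h).nontrivial p e ih
    · exact (Step.r3' u v j i h).nontrivial p e ih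
  | far u v i j h _ ih => exact (Step.far u v i j h).nontrivial p e ih

/-- For `N ≥ 10^12` and every field `k` of characteristic `0` the triply graded homology of the
positive braid `FT_2^N FT_4^(2N) FT_5^N FT_7^(3N)` on `7` strands (computed from its literal word, or
from any positive word obtained from it by braid relations) is nonzero, already in the top
Hochschild degree `7`, in the homological degree `0` and in some odd homological degree. -/
theorem result (N : ℕ) (hN : 10 ^ 12 ≤ N) :
    braidOf (word N) = FT 6 2 ^ N * FT 6 4 ^ (2 * N) * FT 6 5 ^ N * FT 6 7 ^ (3 * N) ∧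
    ∀ (k : Type) [Field k] [CharZero k] (w : List (Fin 6)), BraidEq (word N) w →
      Nontrivial (HHH k 6 w 7 0) ∧ ∃ e : ℕ, Odd e ∧ Nontrivial (HHH k 6 w 7 e) := by
  refine ⟨?_, ?_⟩
  · rw [word_eq, braidOf_ftWord, braid_final']
  · intro k _ _ w hw
    obtain ⟨h0, e, he, h1⟩ := final_jm k N hN
    refine ⟨nontrivial_of_braidEq hw 7 0 ?_, e, he, nontrivial_of_braidEq hw 7 e ?_⟩
    · rw [word_eq]
      exact nontrivial_literal 6 (aexp N) (mexp N) (mexp_eq N) 7 0 h0
    · rw [word_eq]
      exact nontrivial_literal 6 (aexp N) (mexp N) (mexp_eq N) 7 e h1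

end Pool.Agent.Results.MP_c30e5d_gt.NotParity
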